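import Pool.Agent.H71.NU.Stmts

/-! # CLU: sets of lists on which the labellings agree are in the cluster -/

set_option autoImplicit false

namespace NU

open MeasureTheory MS

theorem CLU_card (n : ℕ) (A : Set (List L)) (hA : ∀ v ∈ A, v.length ≤ n) :
    A.ncard ≤ 1 + ∑ s, {v | s :: v ∈ A}.ncard := by
  classical
  have hfin : ∀ (m : ℕ) (B : Set (List L)), (∀ v ∈ B, v.length ≤ m) → B.Finite := fun m B hB =>
    (List.finite_length_le L m).subset hB
  have hAf := hfin n A hA
  have hsf : ∀ s, {v | s :: v ∈ A}.Finite := fun s =>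
    hfin n _ fun v hv => by
      have := hA _ hv
      rw [List.length_cons] at this
      omega
  have h1 : hAf.toFinset ⊆ {[]} ∪ Finset.univ.biUnion fun s : L =>
      (hsf s).toFinset.image (List.cons s) := by
    intro v hv
    rw [Set.Finite.mem_toFinset] at hv
    cases v with
    | nil => exact Finset.mem_union_left _ (Finset.mem_singleton_self _)
    | cons s v =>
      refine Finset.mem_union_right _ (Finset.mem_biUnion.2 ⟨s, Finset.mem_univ s, ?_⟩)
      exact Finset.mem_image.2 ⟨v, (Set.Finite.mem_toFinset _).2 hv, rfl⟩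
  rw [Set.ncard_eq_toFinset_card A hAf]
  refine (Finset.card_le_card h1).trans ((Finset.card_union_le _ _).trans ?_)
  rw [Finset.card_singleton]
  refine Nat.add_le_add_left (Finset.card_biUnion_le.trans (Finset.sum_le_sum fun s _ => ?_)) 1
  rw [Set.ncard_eq_toFinset_card _ (hsf s)]
  exact Finset.card_image_le

theorem sClu : SClu := by
  intro n
  induction n with
  | zero =>
    intro ω ℓ A h1 h2
    rcases A.eq_empty_or_nonempty with h | ⟨v, hv⟩
    · rw [h, Set.ncard_empty]
      exact Nat.zero_le _
    · have h3 : ω [] = ℓ [] := h2 v hv [] List.nil_prefix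
      have h4 : A ⊆ {[]} := by
        intro u hu
        have := h1 u hu
        exact List.length_eq_zero_iff.1 (by omega)
      have h5 : A.ncard ≤ 1 := by
        have := Set.ncard_le_ncard h4 (Set.finite_singleton _)
        rwa [Set.ncard_singleton] at this
      have h6 : Z (0 + 1) ω ℓ = 1 + ∑ s, Z 0 (fun l => ω (s :: l)) (fun l => ℓ (s :: l)) :=
        if_pos h3
      rw [h6]
      omega
  | succ n ih =>
    intro ω ℓ A h1 h2
    rcases A.eq_empty_or_nonempty with h | ⟨v, hv⟩
    · rw [h, Set.ncard_empty]
      exact Nat.zero_le _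
    · have h3 : ω [] = ℓ [] := h2 v hv [] List.nil_prefix
      have h6 : Z (n + 1 + 1) ω ℓ =
          1 + ∑ s, Z (n + 1) (fun l => ω (s :: l)) (fun l => ℓ (s :: l)) := if_pos h3
      rw [h6]
      refine (CLU_card (n + 1) A h1).trans (Nat.add_le_add_left (Finset.sum_le_sum fun s _ => ?_) 1)
      refine ih _ _ _ ?_ ?_
      · intro v hv
        have := h1 _ hv
        rw [List.length_cons] at this
        omega
      · intro v hv u hu
        exact h2 _ hv (s :: u) (List.cons_prefix_cons.2 ⟨rfl, hu⟩)

end NU
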