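import Pool.Agent.H71.NU.Stmts

/-! # DEC: a key decodes the labelling on the good vertices -/

set_option autoImplicit false

namespace NU

open MeasureTheory MS

theorem DEC_mem {K : Set Om} {v : List L} {ω : Om} (h : Good T K v ω) : ω ∈ K := by
  cases v with
  | nil => exact h
  | cons s v => exact h.1

theorem DEC_good {K : Set Om} {u : List L} : ∀ {v : List L} {ω : Om}, u <+: v → Good T K v ω →
    Good T K u ω := by
  induction u with
  | nil =>
    intro v ω _ h
    exact DEC_mem h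
  | cons s u ih =>
    intro v ω hu h
    obtain ⟨w, rfl⟩ := hu
    exact ⟨h.1, ih (v := u ++ w) ⟨w, rfl⟩ h.2⟩

theorem DEC_red {u v : List L} (hu : u <+: v) (h : Red v) : Red u := by
  obtain ⟨t, rfl⟩ := hu
  exact (List.isChain_append.1 h).1

theorem DEC_path {K : Set Om} {N I g r : ℕ} {P : ℕ → Om → Om → Prop} {key : ℕ → Om → ℕ}
    (hD : Decoder K N I g r P key) (v : List L) : ∀ (n B : ℕ) (ω ω' : Om), v.length ≤ n →
    g + r * n ≤ B → Good T K v ω → Good T K v ω' → P B ω ω' → act T v ω [] = act T v ω' [] := by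
  induction v with
  | nil =>
    intro n B ω ω' _ hB h h' hP
    exact hD.root B (by omega) ω h ω' h' hP
  | cons s v ih =>
    intro n B ω ω' hn hB h h' hP
    rw [List.length_cons] at hn
    obtain ⟨n', rfl⟩ : ∃ n', n = n' + 1 := ⟨n - 1, by omega⟩
    have h1 := hD.step B (by omega) ω h.1 ω' h'.1 hP s
    refine ih n' (B - r) (T s ω) (T s ω') (by omega) ?_ h.2 h'.2 h1
    rw [Nat.mul_add, Nat.mul_one] at hB
    omega

theorem sDec (hT : STog) : SDec := by
  classical
  intro K N I g r P key hD n c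
  refine ⟨fun u => if h : ∃ ω, key (g + r * n) ω = c ∧ u ∈ Kn T K n ω then h.choose u else 0,
    fun ω hω v hv u hu => ?_⟩
  have h1 : u ∈ Kn T K n ω :=
    ⟨DEC_red hu hv.1, hu.length_le.trans hv.2.1, DEC_good hu hv.2.2⟩
  have hex : ∃ ω, key (g + r * n) ω = c ∧ u ∈ Kn T K n ω := ⟨ω, hω, h1⟩
  have h2 := hex.choose_spec
  show ω u = (if h : ∃ ω, key (g + r * n) ω = c ∧ u ∈ Kn T K n ω then h.choose u else 0)
  rw [dif_pos hex]
  set ω' := hex.choose with hω'
  have h3 : P (g + r * n) ω ω' :=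
    hD.key_eq _ ω (DEC_mem h1.2.2) ω' (DEC_mem h2.2.2.2) (hω.trans h2.1.symm)
  have h4 := DEC_path hD u n (g + r * n) ω ω' h1.2.1 le_rfl h1.2.2 h2.2.2.2 h3
  rwa [hT.2.2.2 u ω h1.1, hT.2.2.2 u ω' h1.1] at h4

end NU
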