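import Pool.Agent.H71.NU.Stmts

/-! # GWT: the agreement cluster is subcritical -/

set_option autoImplicit false

namespace NU

open MeasureTheory MS

theorem GWT_sub (s : L) : Measurable fun (ω : Om) (l : List L) => ω (s :: l) :=
  measurable_pi_lambda _ fun _ => measurable_pi_apply _

theorem GWT_sum (F : L → Om → ℕ) (hF : ∀ s, Measurable (F s)) :
    Measurable fun ω : Om => 1 + ∑ s, F s ω := by
  have h : Measurable fun ω : Om => ∑ s, F s ω := Finset.measurable_fun_sum _ fun s _ => hF s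
  exact h.const_add 1

theorem GWT_meas (n : ℕ) : ∀ ℓ : Om, Measurable fun ω : Om => Z n ω ℓ := by
  induction n with
  | zero =>
    intro ℓ
    exact measurable_const
  | succ n ih =>
    intro ℓ
    have h0 : Measurable fun ω : Om => ω [] := measurable_pi_apply ([] : List L)
    have h1 : MeasurableSet {ω : Om | ω [] = ℓ []} := h0 (measurableSet_singleton (ℓ []))
    have h2 : Measurable fun ω : Om => 1 + ∑ s, Z n (fun l => ω (s :: l)) (fun l => ℓ (s :: l)) :=
      GWT_sum _ fun s => (ih (fun l => ℓ (s :: l))).comp (GWT_sub s)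
    exact Measurable.ite h1 h2 measurable_const

theorem GWT_meas2 (n : ℕ) (ℓ : Om) : Measurable fun ω : Om => (2 : ENNReal) ^ Z n ω ℓ := by
  have : Measurable fun k : ℕ => (2 : ENNReal) ^ k := measurable_of_countable _
  exact this.comp (GWT_meas n ℓ)

theorem GWT_int {μ : Measure Om} (hμ : IsBern μ) (n : ℕ) :
    ∀ ℓ : Om, ∫⁻ ω, (2 : ENNReal) ^ Z n ω ℓ ∂μ ≤ 2 := by
  have := hμ.prob
  induction n with
  | zero =>
    intro ℓ
    have h1 : ∀ ω : Om, (2 : ENNReal) ^ Z 0 ω ℓ = 1 := fun ω => pow_zero _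
    simp only [h1, lintegral_const, measure_univ, mul_one]
    norm_num
  | succ n ih =>
    intro ℓ
    have h1 : ∀ ω : Om, (2 : ENNReal) ^ Z (n + 1) ω ℓ ≤ 1 +
        (if ω [] = ℓ [] then 2 else 0) *
          ∏ s, (2 : ENNReal) ^ Z n (fun l => ω (s :: l)) (fun l => ℓ (s :: l)) := by
      intro ω
      by_cases h : ω [] = ℓ []
      · have h2 : Z (n + 1) ω ℓ =
            1 + ∑ s, Z n (fun l => ω (s :: l)) (fun l => ℓ (s :: l)) := if_pos h
        rw [h2, if_pos h, pow_add, pow_one, Finset.prod_pow_eq_pow_sum]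
        exact le_add_self
      · have h2 : Z (n + 1) ω ℓ = 0 := if_neg h
        rw [h2, pow_zero]
        exact le_self_add
    refine (lintegral_mono (f := fun ω : Om => (2 : ENNReal) ^ Z (n + 1) ω ℓ)
      (g := fun ω : Om => 1 + (if ω [] = ℓ [] then 2 else 0) *
          ∏ s, (2 : ENNReal) ^ Z n (fun l => ω (s :: l)) (fun l => ℓ (s :: l)))
      (fun ω => h1 ω)).trans ?_
    rw [lintegral_add_left measurable_const, lintegral_const, measure_univ, mul_one]
    have h2 := hμ.indep (fun q => if q = ℓ [] then 2 else 0)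
      (fun s ω => (2 : ENNReal) ^ Z n ω (fun l => ℓ (s :: l)))
      (fun s => GWT_meas2 n _)
    rw [h2, Finset.sum_ite_eq' Finset.univ (ℓ []), if_pos (Finset.mem_univ _)]
    have h3 : ∏ s : L, ∫⁻ ω, (2 : ENNReal) ^ Z n ω (fun l => ℓ (s :: l)) ∂μ ≤ 2 ^ 16 := by
      calc ∏ s : L, ∫⁻ ω, (2 : ENNReal) ^ Z n ω (fun l => ℓ (s :: l)) ∂μ ≤ ∏ _s : L, 2 :=
            Finset.prod_le_prod' fun s _ => ih _
        _ = 2 ^ 16 := by
          rw [Finset.prod_const, Finset.card_univ, Fintype.card_fin]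
    calc (1 : ENNReal) + 2 / 131072 * ∏ s : L,
          ∫⁻ ω, (2 : ENNReal) ^ Z n ω (fun l => ℓ (s :: l)) ∂μ ≤ 1 + 2 / 131072 * 2 ^ 16 := by
          gcongr
      _ = 2 := by
          rw [← ENNReal.mul_div_right_comm]
          norm_num
          rw [ENNReal.div_self (by norm_num) (by norm_num)]
          norm_num

theorem sGwt : SGwt := by
  intro μ hμ ℓ n m
  have h1 : {ω : Om | m ≤ Z n ω ℓ} = {ω : Om | (2 : ENNReal) ^ m ≤ 2 ^ Z n ω ℓ} := by
    ext ω
    constructor
    · intro h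
      exact pow_le_pow_right₀ (one_le_two : (1 : ENNReal) ≤ 2) h
    · intro h
      by_contra hcon
      have h2 : Z n ω ℓ < m := not_le.1 hcon
      have h3 : (2 : ENNReal) ^ Z n ω ℓ < 2 ^ m := by
        have h4 : (2 : NNReal) ^ Z n ω ℓ < 2 ^ m := pow_lt_pow_right₀ (by norm_num) h2
        exact_mod_cast h4
      exact absurd h (not_le.2 h3)
  rw [h1]
  refine (meas_ge_le_lintegral_div (GWT_meas2 n ℓ).aemeasurable (by positivity)
    (by exact ENNReal.pow_ne_top (by norm_num))).trans ?_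
  exact ENNReal.div_le_div_right (GWT_int hμ n ℓ) _

end NU
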